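import Pool.Agent.T9h79.SP.Poly

/-!
Self-avoiding polygons on the square lattice: the numbers `p_{2n}` are locally geometric at most
perimeters, and the conjectured asymptotics `p_{2n} ~ C μ^(2n) n^(-5/2)` follow from any set of
perimeters with gaps `o(√n)`.
-/

set_option autoImplicit false

open Filter Topology

namespace Pool.Agent.Results.MP_376faf_co.MostPerimeters

/-- the number of `n`-step self-avoiding walks on `ℤ²` started at the origin -/
noncomputable def c (n : ℕ) : ℕ :=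
  Nat.card {f : Fin (n + 1) → ℤ × ℤ // f 0 = 0 ∧ Function.Injective f ∧
    ∀ i : Fin n, |(f i.succ).1 - (f i.castSucc).1| + |(f i.succ).2 - (f i.castSucc).2| = 1}

/-- the number `p_{2n}` of self-avoiding polygons of perimeter `2n` on `ℤ²` up to translation: the
number of injective nearest-neighbour closed loops `f : ℤ/2n → ℤ²` with `f 0 = 0`, divided by `4n`
(the choices of the starting point and of the orientation) -/
noncomputable def p (n : ℕ) : ℝ :=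
  ((Nat.card {f : ZMod (2 * n) → ℤ × ℤ // f 0 = 0 ∧ Function.Injective f ∧
    ∀ i : ZMod (2 * n), |(f (i + 1)).1 - (f i).1| + |(f (i + 1)).2 - (f i).2| = 1} : ℕ) : ℝ)
    / (4 * (n : ℝ))

/-- for each `δ > 0` every interval `[n, n + δ √n]`, `n` large, meets `S` -/
def Gaps (S : Set ℕ) : Prop :=
  ∀ δ : ℝ, 0 < δ → ∀ᶠ n : ℕ in atTop, ∃ m ∈ S, n ≤ m ∧ (m : ℝ) ≤ n + δ * Real.sqrt n

/-- for each `δ > 0` every interval `[n, n + δ √(n log n)]`, `n` large, meets `S` -/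
def LogGaps (S : Set ℕ) : Prop :=
  ∀ δ : ℝ, 0 < δ → ∀ᶠ n : ℕ in atTop, ∃ m ∈ S, n ≤ m ∧
    (m : ℝ) ≤ n + δ * Real.sqrt (n * Real.log n)

lemma c_eq (n : ℕ) : (c n : ℝ) = H981.cr' n := by
  rw [H981.cr'_eq]
  unfold c H981.C H981.IsSAW
  congr 1
  apply Nat.card_congr
  apply Equiv.subtypeEquivRight
  intro f
  constructor
  · rintro ⟨h0, h1, h2⟩
    exact ⟨h0, h2, h1⟩
  · rintro ⟨h0, h2, h1⟩
    exact ⟨h0, h1, h2⟩

lemma p_eq (n : ℕ) : p n = H981.PP n := rfl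

lemma p_pos {n : ℕ} (hn : 2 ≤ n) : 0 < p n := Pool.Agent.H739K.PP_pos' hn

open Pool.Agent.T9h79.SP in
lemma y_eq (n : ℕ) : p n / H981.mu ^ (2 * n) = y n := rfl

lemma log_y {n : ℕ} (hn : 2 ≤ n) : Real.log (Pool.Agent.T9h79.SP.y n) =
    Real.log (p n) - n * (2 * Real.log H981.mu) := by
  rw [← y_eq, Real.log_div (p_pos hn).ne' (pow_pos H981.mu_pos _).ne', Real.log_pow]
  push_cast
  ring

lemma ratio {n : ℕ} (hn : 2 ≤ n) : p (n + 1) / p n - H981.mu ^ 2 =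
    H981.mu ^ 2 * (Pool.Agent.T9h79.SP.y (n + 1) / Pool.Agent.T9h79.SP.y n - 1) := by
  have h1 := (p_pos hn).ne'
  have h2 := H981.mu_pos.ne'
  rw [← y_eq, ← y_eq, show 2 * (n + 1) = 2 * n + 2 by ring, pow_add]
  field_simp

/-- **Theorem.** Let `μ` be the connective constant of `ℤ²` and `p_{2n}` the number of self-avoiding
polygons of perimeter `2n` up to translation.
(1) There is `K` such that `∑_{N ≤ n < 2N} |log (p_{2n+4} p_{2n} / p_{2n+2}²)| ≤ K` for all large `N`.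
(2) There is `K` such that for every `η > 0` and all large `N`, all but at most `η N` of the
`n ∈ [N, 2N)` satisfy `|log (p_{2n+2j} / p_{2n}) - j log (p_{2n+2} / p_{2n})| ≤ (K / η) j² / N` for
all `j ≤ 2 N`.
(3) Let `S` be a set of natural numbers with gaps `o(√n)`, `θ` real and `C > 0`. If
`p_{2n} μ^(-2n) n^θ → C` along `S`, then along all `n`, and `(p_{2n+2} / p_{2n} - μ²) √n → 0`.
(4) Let the gaps of `S` be at most `δ √n` (for large `n`), `θ` real and `0 < A`. If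
`A ≤ p_{2n} μ^(-2n) n^θ ≤ B` for the large `n` in `S`, then `A' ≤ p_{2n} μ^(-2n) n^θ ≤ B'` for all large
`n`, with constants `A'`, `B' > 0`.
(5) Let the gaps of `S` be `o(√(n log n))`. If `log (p_{2n} μ^(-2n)) / log n → θ` along `S`, then
along all `n`, and `(p_{2n+2} / p_{2n} - μ²) √(n / log n) → 0`. -/
theorem result : ∃ μ : ℝ, 0 < μ ∧
    Tendsto (fun n : ℕ => (c n : ℝ) ^ ((1 : ℝ) / (n : ℝ))) atTop (𝓝 μ) ∧
    (∃ K : ℝ, ∀ᶠ N : ℕ in atTop, ∑ n ∈ Finset.Ico N (2 * N),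
      |Real.log (p (n + 2) * p n / p (n + 1) ^ 2)| ≤ K) ∧
    (∃ K : ℝ, ∀ η : ℝ, 0 < η → ∀ᶠ N : ℕ in atTop,
      ({n : ℕ | N ≤ n ∧ n < 2 * N ∧ ∃ j : ℕ, j ≤ 2 * N ∧ K / η * (j : ℝ) ^ 2 / N <
        |Real.log (p (n + j) / p n) - j * Real.log (p (n + 1) / p n)|}.ncard : ℝ) ≤ η * N) ∧
    (∀ (S : Set ℕ) (θ C : ℝ), Gaps S → 0 < C →
      Tendsto (fun n : ℕ => p n / μ ^ (2 * n) * (n : ℝ) ^ θ) (atTop ⊓ 𝓟 S) (𝓝 C) →
      Tendsto (fun n : ℕ => p n / μ ^ (2 * n) * (n : ℝ) ^ θ) atTop (𝓝 C) ∧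
      Tendsto (fun n : ℕ => (p (n + 1) / p n - μ ^ 2) * Real.sqrt n) atTop (𝓝 0)) ∧
    (∀ (S : Set ℕ) (δ θ A B : ℝ), 0 < δ → 0 < A →
      (∀ᶠ n : ℕ in atTop, ∃ m ∈ S, n ≤ m ∧ (m : ℝ) ≤ n + δ * Real.sqrt n) →
      (∀ᶠ n : ℕ in atTop, n ∈ S → A ≤ p n / μ ^ (2 * n) * (n : ℝ) ^ θ ∧
        p n / μ ^ (2 * n) * (n : ℝ) ^ θ ≤ B) →
      ∃ A' B' : ℝ, 0 < A' ∧ 0 < B' ∧ ∀ᶠ n : ℕ in atTop,
        A' ≤ p n / μ ^ (2 * n) * (n : ℝ) ^ θ ∧ p n / μ ^ (2 * n) * (n : ℝ) ^ θ ≤ B') ∧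
    (∀ (S : Set ℕ) (θ : ℝ), LogGaps S →
      Tendsto (fun n : ℕ => Real.log (p n / μ ^ (2 * n)) / Real.log n) (atTop ⊓ 𝓟 S) (𝓝 θ) →
      Tendsto (fun n : ℕ => Real.log (p n / μ ^ (2 * n)) / Real.log n) atTop (𝓝 θ) ∧
      Tendsto (fun n : ℕ => (p (n + 1) / p n - μ ^ 2) * Real.sqrt (n / Real.log n)) atTop
        (𝓝 0)) := by
  have hmu := H981.mu_pos
  obtain ⟨D, hN⟩ := Pool.Agent.T9h79.SP.nc_y
  obtain ⟨D', K⟩ := Pool.Agent.T9h79.SP.kc_y
  have hdiv : ∀ (θ : ℝ) (n : ℕ), p n / H981.mu ^ (2 * n) * (n : ℝ) ^ θ =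
      Pool.Agent.T9h79.SP.y n / (n : ℝ) ^ (-θ) := by
    intro θ n
    rw [y_eq, Real.rpow_neg (Nat.cast_nonneg n), div_inv_eq_mul]
  refine ⟨H981.mu, hmu, ?_, ?_, ?_, ?_, ?_, ?_⟩
  · simp only [c_eq]
    exact H981.tendsto_root
  · refine ⟨2 + 10 * D, ?_⟩
    filter_upwards [Pool.Agent.R475.AL.tv hN, eventually_ge_atTop 2] with N h1 h2
    have hsub : Finset.Ico N (2 * N) ⊆ Finset.Ico N (6 * N) :=
      Finset.Ico_subset_Ico_right (by omega)
    refine le_trans (le_trans (le_of_eq ?_) (Finset.sum_le_sum_of_subset_of_nonneg hsub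
      (fun k _ _ => Pool.Agent.R475.AL.V_nonneg _ k))) h1
    refine Finset.sum_congr rfl fun n hn => ?_
    rw [Finset.mem_Ico] at hn
    have p0 := p_pos (n := n) (by omega)
    have p1 := p_pos (n := n + 1) (by omega)
    have p2 := p_pos (n := n + 2) (by omega)
    unfold Pool.Agent.R475.AL.V
    beta_reduce
    rw [log_y (by omega), log_y (by omega), log_y (by omega),
      Real.log_div (by positivity) (by positivity), Real.log_mul p2.ne' p0.ne', Real.log_pow]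
    congr 1
    push_cast
    ring
  · obtain ⟨K1, hK1, h1⟩ := (Pool.Agent.T9h79.SP.bv_of_nc hN).lin
    refine ⟨K1, fun η hη => ?_⟩
    filter_upwards [h1 η hη, eventually_ge_atTop 2] with N h2 h3
    refine le_trans ?_ h2
    rw [← Set.ncard_coe_finset]
    refine Nat.cast_le.2 (Set.ncard_le_ncard ?_ (Finset.finite_toSet _))
    rintro n ⟨g1, g2, j, g3, g4⟩
    rw [Finset.mem_coe, Finset.mem_filter, Finset.mem_Ico]
    refine ⟨⟨g1, g2⟩, j, g3, ?_⟩
    have p0 := p_pos (n := n) (by omega)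
    have p1 := p_pos (n := n + 1) (by omega)
    have pj := p_pos (n := n + j) (by omega)
    rw [log_y (by omega), log_y (by omega), log_y (by omega)]
    rw [Real.log_div pj.ne' p0.ne', Real.log_div p1.ne' p0.ne'] at g4
    refine lt_of_lt_of_eq g4 ?_
    congr 1
    push_cast
    ring
  · intro S θ C hS hC h
    simp only [hdiv] at h ⊢
    have h1 := K.form hS hC h
    refine ⟨h1, ?_⟩
    have h2 := (K.ratio_form hC h1).const_mul (H981.mu ^ 2)
    rw [mul_zero] at h2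
    refine h2.congr' ?_
    filter_upwards [eventually_ge_atTop 2] with n hn
    rw [ratio hn]
    ring
  · intro S δ θ A B hδ hA hS h
    simp only [hdiv] at h ⊢
    exact K.bounds hδ hS hA h
  · intro S θ hS h
    simp only [y_eq] at h ⊢
    have h1 := K.expo hS h
    refine ⟨h1, ?_⟩
    have h2 := (K.ratio_expo h1).const_mul (H981.mu ^ 2)
    rw [mul_zero] at h2
    refine h2.congr' ?_
    filter_upwards [eventually_ge_atTop 2] with n hn
    rw [ratio hn]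
    ring

end Pool.Agent.Results.MP_376faf_co.MostPerimeters
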