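import Pool.Agent.T9h33.PL

set_option autoImplicit false

/-!
Self-avoiding polygons on the square lattice: the third derivative of the generating function is
infinite at the critical point, `p_{2n} ≥ n^(-4) μ^(2n)` for infinitely many `n`, and a hyperscaling
inequality between the number of polygons and the correlation length or their width. The proofs go
through periodic self-avoiding paths.
-/

namespace Pool.Agent.Results.MP_376faf_co.PolygonLowerBound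

open Filter Topology

/-- the number of `n`-step self-avoiding walks on `ℤ²` started at the origin -/
noncomputable def c (n : ℕ) : ℕ :=
  Nat.card {f : Fin (n + 1) → ℤ × ℤ // f 0 = 0 ∧ Function.Injective f ∧
    ∀ i : Fin n, |(f i.succ).1 - (f i.castSucc).1| + |(f i.succ).2 - (f i.castSucc).2| = 1}

/-- a closed nearest-neighbour loop on `ℤ²` with `m` steps, rooted at the origin and oriented,
that visits no vertex twice -/
def IsLoop (m : ℕ) (f : ZMod m → ℤ × ℤ) : Prop :=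
  f 0 = 0 ∧ Function.Injective f ∧
    ∀ i : ZMod m, |(f (i + 1)).1 - (f i).1| + |(f (i + 1)).2 - (f i).2| = 1

/-- the number of self-avoiding polygons of perimeter `2n` on `ℤ²` up to translation: the number
of rooted oriented loops with `2n` steps, divided by `4n` (the choices of the starting point and
of the orientation) -/
noncomputable def p (n : ℕ) : ℝ :=
  (Nat.card {f : ZMod (2 * n) → ℤ × ℤ // IsLoop (2 * n) f} : ℝ) / (4 * (n : ℝ))

/-- the width: the largest difference of the first coordinates of two vertices -/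
noncomputable def width {m : ℕ} (f : ZMod m → ℤ × ℤ) : ℕ :=
  sSup {k : ℕ | ∃ i j, (k : ℤ) ≤ (f i).1 - (f j).1}

/-- the number of polygons of perimeter `2n` and width at least `T`, up to translation -/
noncomputable def pw (n T : ℕ) : ℝ :=
  (Nat.card {f : ZMod (2 * n) → ℤ × ℤ // IsLoop (2 * n) f ∧ ∃ i j, (T : ℤ) ≤ (f i).1 - (f j).1} : ℝ)
    / (4 * (n : ℝ))

/-- the sum of the cubes of the widths of the polygons of perimeter `2n` up to translation -/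
noncomputable def W3 (n : ℕ) : ℝ :=
  (∑ᶠ f ∈ {f : ZMod (2 * n) → ℤ × ℤ | IsLoop (2 * n) f}, (width f : ℝ) ^ 3) / (4 * (n : ℝ))

/-- the number of periodic self-avoiding paths with `n` steps per period and period vector `x`:
bi-infinite nearest-neighbour paths `f` on `ℤ²` through the origin that visit no vertex twice, with
`f (t + n) = f t + x` for all `t` -/
noncomputable def q (n : ℕ) (x : ℤ × ℤ) : ℕ :=
  Nat.card {f : ℤ → ℤ × ℤ // f 0 = 0 ∧ Function.Injective f ∧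
    (∀ t : ℤ, |(f (t + 1)).1 - (f t).1| + |(f (t + 1)).2 - (f t).2| = 1) ∧
    ∀ t : ℤ, f (t + n) = f t + x}

/-- `c_n(x)`: the number of `n`-step self-avoiding walks from the origin to `x` -/
noncomputable def cx (n : ℕ) (x : ℤ × ℤ) : ℕ :=
  Nat.card {f : Fin (n + 1) → ℤ × ℤ // (f 0 = 0 ∧ Function.Injective f ∧
    ∀ i : Fin n, |(f i.succ).1 - (f i.castSucc).1| + |(f i.succ).2 - (f i.castSucc).2| = 1) ∧
    f (Fin.last n) = x}

/-- the two-point function `G_z(x)`, the sum of `c_n(x) z^n` over all `n` -/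
noncomputable def G (z : ℝ) (x : ℤ × ℤ) : ℝ := ∑' n : ℕ, (cx n x : ℝ) * z ^ n

/-- the normalised number `p_{2n} μ^(-2n)` -/
noncomputable def u (μ : ℝ) (n : ℕ) : ℝ := p n / μ ^ (2 * n)

lemma c_eq (n : ℕ) : (c n : ℝ) = H981.cr' n := by
  rw [H981.cr'_eq]
  unfold c H981.C H981.IsSAW
  congr 1
  apply Nat.card_congr
  apply Equiv.subtypeEquivRight
  intro f
  constructor
  · rintro ⟨h0, h1, h2⟩
    exact ⟨h0, h2, h1⟩
  · rintro ⟨h0, h2, h1⟩
    exact ⟨h0, h1, h2⟩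

lemma p_eq (n : ℕ) : p n = H981.PP n := rfl

lemma p_pos {n : ℕ} (hn : 2 ≤ n) : 0 < p n := Pool.Agent.H739K.PP_pos hn

lemma q_eq {n : ℕ} (hn : 1 ≤ n) {x : ℤ × ℤ} (hx : 1 ≤ x.1) :
    q n x = (Pool.Agent.T9h33.PA.PF n x).card := by
  have e : q n x = Nat.card {f // f ∈ Pool.Agent.T9h33.PA.PF n x} := by
    unfold q
    apply Nat.card_congr
    apply Equiv.subtypeEquivRight
    intro f
    rw [Pool.Agent.T9h33.PA.mem_PF hn hx]
    constructor
    · rintro ⟨h1, h2, h3, h4⟩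
      exact ⟨h1, h2, h3, h4⟩
    · rintro ⟨h1, h2, h3, h4⟩
      exact ⟨h1, h2, h3, h4⟩
  rw [e, Nat.card_eq_fintype_card, Fintype.card_coe]

lemma pw_eq (n T : ℕ) : pw n T = Pool.Agent.T9h33.PJ.pw n T := by
  rcases Nat.eq_zero_or_pos n with h | h
  · rw [h]
    unfold pw Pool.Agent.T9h33.PJ.pw
    simp
  · have : NeZero (2 * n) := ⟨by omega⟩
    unfold pw Pool.Agent.T9h33.PJ.pw
    congr 2
    have e : Nat.card {f : ZMod (2 * n) → ℤ × ℤ // IsLoop (2 * n) f ∧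
        ∃ i j, (T : ℤ) ≤ (f i).1 - (f j).1} =
        Nat.card {f // f ∈ Pool.Agent.T9h33.PI.LW (2 * n) T} := by
      apply Nat.card_congr
      apply Equiv.subtypeEquivRight
      intro f
      rw [Pool.Agent.T9h33.PI.mem_LW, Pool.Agent.W870.Pg.mem_LF]
      exact Iff.rfl
    rw [e, Nat.card_eq_fintype_card, Fintype.card_coe]

lemma W3_eq (n : ℕ) : W3 n = Pool.Agent.T9h33.PK.W3 n := by
  rcases Nat.eq_zero_or_pos n with h | h
  · rw [h]
    unfold W3 Pool.Agent.T9h33.PK.W3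
    simp
  · have : NeZero (2 * n) := ⟨by omega⟩
    unfold W3 Pool.Agent.T9h33.PK.W3
    congr 1
    have e : {f : ZMod (2 * n) → ℤ × ℤ | IsLoop (2 * n) f} =
        (Pool.Agent.W870.Pg.LF (2 * n) : Set (ZMod (2 * n) → ℤ × ℤ)) := by
      ext f
      rw [Finset.mem_coe, Pool.Agent.W870.Pg.mem_LF]
      exact Iff.rfl
    rw [e, finsum_mem_coe_finset]
    rfl

lemma cx_eq (n : ℕ) (x : ℤ × ℤ) : cx n x = TH795.EP.a n x.1 x.2 := by
  rw [← TH795.EP2.card_walks_to n x]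
  unfold cx
  apply Nat.card_congr
  apply Equiv.subtypeEquivRight
  intro f
  constructor
  · rintro ⟨⟨h0, h1, h2⟩, h3⟩
    exact ⟨⟨h0, h2, h1⟩, h3⟩
  · rintro ⟨⟨h0, h2, h1⟩, h3⟩
    exact ⟨⟨h0, h1, h2⟩, h3⟩

lemma G_eq (z : ℝ) (x y : ℤ) : G z (x, y) = Y981.L2.Gz z x y := by
  unfold G Y981.L2.Gz
  apply tsum_congr
  intro n
  rw [cx_eq]

/-- the correlation length -/
lemma xi_spec {n : ℕ} (hn : 1 ≤ n) : 0 < T9h33.Mod.xi n ∧
    Tendsto (fun k : ℕ => - Real.log (G (Real.exp (-1 / n) / H981.mu) (k, 0)) / k) atTop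
      (𝓝 (1 / T9h33.Mod.xi n)) := by
  have hmu := H981.mu_pos
  refine ⟨T9h33.Mod.xi_pos hn, ?_⟩
  have hn0 : (0 : ℝ) < n := by exact_mod_cast hn
  have hz : 0 < Real.exp (-1 / (n : ℝ)) / H981.mu := by positivity
  have hz1 : Real.exp (-1 / (n : ℝ)) / H981.mu < 1 / H981.mu := by
    apply div_lt_div_of_pos_right _ hmu
    rw [Real.exp_lt_one_iff, neg_div]
    have : 0 < 1 / (n : ℝ) := by positivity
    linarith
  have h := Y981.L2X.G_dir hz hz1 (x := (1, 0)) (by simp)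
  have e := Y981.L2.e_z (1 / (n : ℝ))
  have e2 : -(1 / (n : ℝ)) = -1 / n := by ring
  rw [e2] at e
  have e3 : (((1 : ℤ) : ℝ), ((0 : ℤ) : ℝ)) = ((1, 0) : ℝ × ℝ) := by simp
  have e4 : Y981.L2X.M (-Real.log (Real.exp (-1 / (n : ℝ)) / H981.mu * H981.mu))
      ((((1, 0) : ℤ × ℤ).1 : ℝ), (((1, 0) : ℤ × ℤ).2 : ℝ)) = 1 / T9h33.Mod.xi n := by
    simp only
    rw [e, e3, Y981.L2X.M_axis (by positivity)]
    unfold T9h33.Mod.xi
    rw [one_div_one_div]
  rw [e4] at h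
  refine h.congr (fun k => ?_)
  simp only [mul_one, mul_zero]
  rw [G_eq]

open Pool.Agent.T9h33 in
lemma pointwise {x : ℤ × ℤ} (hx : 1 ≤ x.1) (k : ℕ) :
    (x.1 : ℝ) * ∑ m ∈ Finset.Icc 1 (2 * k - 1),
      (q m x : ℝ) / (m : ℝ) * ((q (2 * k - m) x : ℝ) / ((2 * k - m : ℕ) : ℝ)) ≤
      pw (k + 1) x.1.toNat := by
  have h1 := PI.point hx (2 * k)
  have hx0 : (0 : ℝ) ≤ x.1 := by exact_mod_cast (by omega : (0 : ℤ) ≤ x.1)
  have h2 : ∑ m ∈ Finset.Icc 1 (2 * k - 1),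
      (q m x : ℝ) / (m : ℝ) * ((q (2 * k - m) x : ℝ) / ((2 * k - m : ℕ) : ℝ)) ≤
      ∑ m ∈ Finset.range (2 * k + 1), PI.rho m x * PI.rho (2 * k - m) x := by
    have e : ∑ m ∈ Finset.Icc 1 (2 * k - 1),
        (q m x : ℝ) / (m : ℝ) * ((q (2 * k - m) x : ℝ) / ((2 * k - m : ℕ) : ℝ)) =
        ∑ m ∈ Finset.Icc 1 (2 * k - 1), PI.rho m x * PI.rho (2 * k - m) x := by
      refine Finset.sum_congr rfl fun m hm => ?_
      rw [Finset.mem_Icc] at hm
      unfold PI.rho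
      rw [q_eq hm.1 hx, q_eq (by omega) hx]
    rw [e]
    refine Finset.sum_le_sum_of_subset_of_nonneg (fun m hm => ?_)
      (fun m _ _ => mul_nonneg (PI.rho_nonneg _ _) (PI.rho_nonneg _ _))
    rw [Finset.mem_Icc] at hm
    rw [Finset.mem_range]
    omega
  refine (mul_le_mul_of_nonneg_left h2 hx0).trans (h1.trans (le_of_eq ?_))
  rw [pw_eq]
  unfold PJ.pw
  rw [show 2 * (k + 1) = 2 * k + 2 by ring]
  push_cast
  congr 1
  ring

lemma log_small (A : ℝ) (j : ℕ) {ε : ℝ} (hε : 0 < ε) :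
    ∀ᶠ n : ℕ in atTop, A * Real.log n ^ j < (n : ℝ) ^ ε := by
  have h1 : (fun x : ℝ => Real.log x ^ (j : ℝ)) =o[atTop] fun x : ℝ => x ^ ε :=
    isLittleO_log_rpow_rpow_atTop j hε
  have hc : (0 : ℝ) < 1 / (|A| + 1) := by positivity
  have h2 := tendsto_natCast_atTop_atTop (R := ℝ) |>.eventually (h1.def hc)
  filter_upwards [h2, eventually_ge_atTop 2] with n hn h2
  have hn0 : (0 : ℝ) < n := by exact_mod_cast (by omega : 0 < n)
  have hl : 0 < Real.log n := Real.log_pos (by exact_mod_cast (by omega : 1 < n))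
  have hE : 0 < (n : ℝ) ^ ε := Real.rpow_pos_of_pos hn0 _
  rw [Real.rpow_natCast, Real.norm_of_nonneg (by positivity), Real.norm_of_nonneg hE.le] at hn
  have h3 : A * Real.log n ^ j ≤ |A| * (1 / (|A| + 1) * (n : ℝ) ^ ε) :=
    (mul_le_mul_of_nonneg_right (le_abs_self A) (by positivity)).trans
      (mul_le_mul_of_nonneg_left hn (abs_nonneg A))
  refine lt_of_le_of_lt h3 ?_
  have h4 : |A| * (1 / (|A| + 1) * (n : ℝ) ^ ε) = |A| / (|A| + 1) * (n : ℝ) ^ ε := by ring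
  rw [h4]
  have h5 : |A| / (|A| + 1) < 1 := by
    rw [div_lt_one (by positivity)]
    linarith
  calc |A| / (|A| + 1) * (n : ℝ) ^ ε < 1 * (n : ℝ) ^ ε := mul_lt_mul_of_pos_right h5 hE
    _ = (n : ℝ) ^ ε := one_mul _

lemma exponent {θ ν A : ℝ} (j : ℕ) (h : ∃ᶠ n : ℕ in atTop,
    1 / ((n : ℝ) * Real.log n ^ j) ≤ A * (n : ℝ) ^ (3 * ν - θ)) : θ ≤ 1 + 3 * ν := by
  by_contra hcon
  push Not at hcon
  obtain ⟨ε, hε⟩ : ∃ ε, ε = θ - 1 - 3 * ν := ⟨_, rfl⟩
  have hε0 : 0 < ε := by rw [hε]; linarith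
  obtain ⟨n, h1, h2, hn⟩ :=
    (h.and_eventually ((log_small A j hε0).and (eventually_ge_atTop 2))).exists
  have hn0 : (0 : ℝ) < n := by exact_mod_cast (by omega : 0 < n)
  have hl : 0 < Real.log n := Real.log_pos (by exact_mod_cast (by omega : 1 < n))
  have hE : 0 < (n : ℝ) ^ ε := Real.rpow_pos_of_pos hn0 _
  rw [div_le_iff₀ (by positivity)] at h1
  have e : (n : ℝ) ^ (3 * ν - θ) * n * (n : ℝ) ^ ε = 1 := by
    have e' : (n : ℝ) ^ (3 * ν - θ) * n * (n : ℝ) ^ ε =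
        (n : ℝ) ^ (3 * ν - θ) * (n : ℝ) ^ (1 : ℝ) * (n : ℝ) ^ ε := by
      rw [Real.rpow_one]
    rw [e', ← Real.rpow_add hn0, ← Real.rpow_add hn0, hε]
    have : 3 * ν - θ + 1 + (θ - 1 - 3 * ν) = 0 := by ring
    rw [this, Real.rpow_zero]
  have h3 : 1 * (n : ℝ) ^ ε ≤ A * (n : ℝ) ^ (3 * ν - θ) * ((n : ℝ) * Real.log n ^ j) *
      (n : ℝ) ^ ε := mul_le_mul_of_nonneg_right h1 hE.le
  have h4 : A * (n : ℝ) ^ (3 * ν - θ) * ((n : ℝ) * Real.log n ^ j) * (n : ℝ) ^ ε =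
      A * Real.log n ^ j := by
    calc A * (n : ℝ) ^ (3 * ν - θ) * ((n : ℝ) * Real.log n ^ j) * (n : ℝ) ^ ε =
        A * Real.log n ^ j * ((n : ℝ) ^ (3 * ν - θ) * n * (n : ℝ) ^ ε) := by ring
      _ = A * Real.log n ^ j := by rw [e, mul_one]
  rw [h4, one_mul] at h3
  linarith

/-- **Hyperscaling inequality for the exponents.** -/
lemma hyperscaling {ξ : ℕ → ℝ} (hξ : ∀ n : ℕ, 1 ≤ n → 0 < ξ n)
    (h1 : ∃ᶠ n : ℕ in atTop,
      H981.mu ^ (2 * n) / ((n : ℝ) * ξ n ^ 3 * Real.log n ^ 10) ≤ p n)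
    (h2 : ∃ᶠ n : ℕ in atTop, H981.mu ^ (2 * n) / ((n : ℝ) * Real.log n ^ 4) ≤ W3 n)
    {θ ν C : ℝ} (e1 : ∀ᶠ n : ℕ in atTop, p n ≤ C * (n : ℝ) ^ (-θ) * H981.mu ^ (2 * n))
    (e2 : (∀ᶠ n : ℕ in atTop, ξ n ≤ C * (n : ℝ) ^ ν) ∨
      ∀ᶠ n : ℕ in atTop, W3 n ≤ C * (n : ℝ) ^ (3 * ν) * p n) : θ ≤ 1 + 3 * ν := by
  have hmu := H981.mu_pos
  have hC : 0 ≤ C := by
    obtain ⟨n, a1, a2⟩ := (e1.and (eventually_ge_atTop 2)).exists
    have hn0 : (0 : ℝ) < n := by exact_mod_cast (by omega : 0 < n)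
    have hB : 0 < (n : ℝ) ^ (-θ) := Real.rpow_pos_of_pos hn0 _
    by_contra hC
    push Not at hC
    have b1 : C * (n : ℝ) ^ (-θ) * H981.mu ^ (2 * n) < 0 :=
      mul_neg_of_neg_of_pos (mul_neg_of_neg_of_pos hC hB) (by positivity)
    have := p_pos a2
    linarith
  rcases e2 with e2 | e2
  · refine exponent (A := C ^ 4) 10 ?_
    refine (h1.and_eventually (e1.and (e2.and (eventually_ge_atTop 2)))).mono ?_
    rintro n ⟨a1, a2, a3, hn⟩
    have hn0 : (0 : ℝ) < n := by exact_mod_cast (by omega : 0 < n)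
    have hl : 0 < Real.log n := Real.log_pos (by exact_mod_cast (by omega : 1 < n))
    have hM : 0 < H981.mu ^ (2 * n) := by positivity
    have hx := hξ n (by omega)
    have hB : 0 < (n : ℝ) ^ (-θ) := Real.rpow_pos_of_pos hn0 _
    have b1 := a1.trans a2
    rw [div_le_iff₀ (by positivity)] at b1
    have b2 : ξ n ^ 3 ≤ C ^ 3 * (n : ℝ) ^ (3 * ν) := by
      calc ξ n ^ 3 ≤ (C * (n : ℝ) ^ ν) ^ 3 := pow_le_pow_left₀ hx.le a3 3
        _ = C ^ 3 * (n : ℝ) ^ (3 * ν) := by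
          rw [mul_pow, ← Real.rpow_natCast ((n : ℝ) ^ ν) 3, ← Real.rpow_mul hn0.le]
          congr 2
          push_cast
          ring
    rw [div_le_iff₀ (by positivity)]
    have b3 : H981.mu ^ (2 * n) * 1 ≤ H981.mu ^ (2 * n) *
        (C ^ 4 * (n : ℝ) ^ (3 * ν - θ) * ((n : ℝ) * Real.log n ^ 10)) := by
      calc H981.mu ^ (2 * n) * 1 = H981.mu ^ (2 * n) := mul_one _
        _ ≤ C * (n : ℝ) ^ (-θ) * H981.mu ^ (2 * n) *
          ((n : ℝ) * ξ n ^ 3 * Real.log n ^ 10) := b1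
        _ ≤ C * (n : ℝ) ^ (-θ) * H981.mu ^ (2 * n) *
          ((n : ℝ) * (C ^ 3 * (n : ℝ) ^ (3 * ν)) * Real.log n ^ 10) := by gcongr
        _ = H981.mu ^ (2 * n) *
          (C ^ 4 * ((n : ℝ) ^ (3 * ν) * (n : ℝ) ^ (-θ)) * ((n : ℝ) * Real.log n ^ 10)) := by
            ring
        _ = _ := by rw [← Real.rpow_add hn0, ← sub_eq_add_neg]
    exact le_of_mul_le_mul_left b3 hM
  · refine exponent (A := C ^ 2) 4 ?_
    refine (h2.and_eventually (e1.and (e2.and (eventually_ge_atTop 2)))).mono ?_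
    rintro n ⟨a1, a2, a3, hn⟩
    have hn0 : (0 : ℝ) < n := by exact_mod_cast (by omega : 0 < n)
    have hl : 0 < Real.log n := Real.log_pos (by exact_mod_cast (by omega : 1 < n))
    have hM : 0 < H981.mu ^ (2 * n) := by positivity
    have hA : 0 < (n : ℝ) ^ (3 * ν) := Real.rpow_pos_of_pos hn0 _
    have b1 : H981.mu ^ (2 * n) / ((n : ℝ) * Real.log n ^ 4) ≤
        C * (n : ℝ) ^ (3 * ν) * (C * (n : ℝ) ^ (-θ) * H981.mu ^ (2 * n)) :=
      (a1.trans a3).trans (mul_le_mul_of_nonneg_left a2 (by positivity))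
    rw [div_le_iff₀ (by positivity)] at b1
    rw [div_le_iff₀ (by positivity)]
    have b3 : H981.mu ^ (2 * n) * 1 ≤ H981.mu ^ (2 * n) *
        (C ^ 2 * (n : ℝ) ^ (3 * ν - θ) * ((n : ℝ) * Real.log n ^ 4)) := by
      calc H981.mu ^ (2 * n) * 1 = H981.mu ^ (2 * n) := mul_one _
        _ ≤ _ := b1
        _ = H981.mu ^ (2 * n) *
          (C ^ 2 * ((n : ℝ) ^ (3 * ν) * (n : ℝ) ^ (-θ)) * ((n : ℝ) * Real.log n ^ 4)) := by
            ring
        _ = _ := by rw [← Real.rpow_add hn0, ← sub_eq_add_neg]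
    exact le_of_mul_le_mul_left b3 hM

/-- **Theorem.** Let `μ` be the connective constant of `ℤ²`, `p_{2n}` the number of self-avoiding
polygons of perimeter `2n` up to translation, `p_{2n}(T)` the number of those of width at least `T`
and `u_n = p_{2n} μ^(-2n)`; Q1 says that `u_n n^(5/2)` tends to some `C > 0`. Let `ξ_n` be the
correlation length of the two-point function of the self-avoiding walk at `z = e^(-1/n) / μ`, i.e.
`G_z((k, 0)) = exp (- k / ξ_n + o(k))`, and `q_m(x)` the number of periodic self-avoiding paths with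
`m` steps per period and period vector `x`.
(1) For every `x` with `x₁ ≥ 1` and every `k`, the sum of `x₁ (q_m(x) / m) (q_l(x) / l)` over the
`m, l ≥ 1` with `m + l = 2k` is at most `p_{2k+2}(x₁)`.
(2) The sum of `n³ u_n` is infinite: the third derivative of the generating function
`∑ p_{2n} z^(2n)` tends to infinity as `z` increases to `1/μ`. There is `κ > 0` such that
`p_{2n} ≥ n^(κ / log log n - 4) μ^(2n)` for infinitely many `n`.
(3) Hyperscaling inequalities: `p_{2n} ≥ μ^(2n) / (n ξ_n³ (log n)^10)` for infinitely many `n`; for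
infinitely many `n` the sum of the cubes of the widths of the polygons of perimeter `2n` is at
least `μ^(2n) / (n (log n)^4)`; for infinitely many `T` the sum of `p_{2n}(T) μ^(-2n)` over all `n` is
at least `T^(-3) (log T)^(-4)`.
(4) Therefore, if `p_{2n} ≤ C n^(-θ) μ^(2n)` for all large `n`, and if `ξ_n ≤ C n^ν` for all large `n`
or the mean of the cube of the width of the polygons of perimeter `2n` is at most `C n^(3ν)` for all
large `n`, then `θ ≤ 1 + 3ν`. -/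
theorem result : ∃ (μ : ℝ) (ξ : ℕ → ℝ), 0 < μ ∧
    Tendsto (fun n : ℕ => (c n : ℝ) ^ ((1:ℝ) / (n : ℝ))) atTop (𝓝 μ) ∧
    (∀ n : ℕ, 1 ≤ n → 0 < ξ n ∧
      Tendsto (fun k : ℕ => - Real.log (G (Real.exp (-1 / n) / μ) (k, 0)) / k) atTop
        (𝓝 (1 / ξ n))) ∧
    (∀ x : ℤ × ℤ, 1 ≤ x.1 → ∀ k : ℕ, (x.1 : ℝ) * ∑ m ∈ Finset.Icc 1 (2 * k - 1),
      (q m x : ℝ) / (m : ℝ) * ((q (2 * k - m) x : ℝ) / ((2 * k - m : ℕ) : ℝ)) ≤
      pw (k + 1) x.1.toNat) ∧
    ¬ Summable (fun n : ℕ => (n : ℝ) ^ 3 * u μ n) ∧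
    (∃ κ : ℝ, 0 < κ ∧ ∃ᶠ n : ℕ in atTop,
      (n : ℝ) ^ (κ / Real.log (Real.log n) - 4) * μ ^ (2 * n) ≤ p n) ∧
    (∃ᶠ n : ℕ in atTop, μ ^ (2 * n) / ((n : ℝ) * ξ n ^ 3 * Real.log n ^ 10) ≤ p n) ∧
    (∃ᶠ n : ℕ in atTop, μ ^ (2 * n) / ((n : ℝ) * Real.log n ^ 4) ≤ W3 n) ∧
    (∃ᶠ T : ℕ in atTop, 1 / ((T : ℝ) ^ 3 * Real.log T ^ 4) ≤ ∑' n : ℕ, pw n T / μ ^ (2 * n)) ∧
    ∀ θ ν C : ℝ, (∀ᶠ n : ℕ in atTop, p n ≤ C * (n : ℝ) ^ (-θ) * μ ^ (2 * n)) →
      ((∀ᶠ n : ℕ in atTop, ξ n ≤ C * (n : ℝ) ^ ν) ∨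
        ∀ᶠ n : ℕ in atTop, W3 n ≤ C * (n : ℝ) ^ (3 * ν) * p n) → θ ≤ 1 + 3 * ν := by
  have hmu := H981.mu_pos
  have hlow : ∃ κ : ℝ, 0 < κ ∧ ∃ᶠ n : ℕ in atTop,
      (n : ℝ) ^ (κ / Real.log (Real.log n) - 4) * H981.mu ^ (2 * n) ≤ p n := by
    obtain ⟨κ, hκ, h⟩ := Pool.Agent.T9h33.PG.lower
    refine ⟨κ, hκ, ?_⟩
    rw [frequently_atTop]
    intro n0
    obtain ⟨n, a1, a2⟩ := h (max n0 1)
    refine ⟨n, (le_max_left _ _).trans a1, ?_⟩
    have hn1 : 1 ≤ n := (le_max_right _ _).trans a1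
    have hn0 : (0 : ℝ) < n := by exact_mod_cast hn1
    rw [p_eq]
    refine le_trans (le_of_eq ?_) a2
    rw [Real.rpow_sub hn0, Real.rpow_def_of_pos hn0]
    have e : Real.log n * (κ / Real.log (Real.log n)) =
        κ * (Real.log n / Real.log (Real.log n)) := by ring
    rw [e, show (4 : ℝ) = ((4 : ℕ) : ℝ) by norm_num, Real.rpow_natCast]
    ring
  have w3 : ∃ᶠ n : ℕ in atTop, H981.mu ^ (2 * n) / ((n : ℝ) * Real.log n ^ 4) ≤ W3 n := by
    simp only [W3_eq]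
    exact Pool.Agent.T9h33.PK.third_often
  have wT : ∃ᶠ T : ℕ in atTop, 1 / ((T : ℝ) ^ 3 * Real.log T ^ 4) ≤
      ∑' n : ℕ, pw n T / H981.mu ^ (2 * n) := by
    simp only [pw_eq]
    exact Pool.Agent.T9h33.PJ.often
  refine ⟨H981.mu, T9h33.Mod.xi, hmu, ?_, fun n hn => xi_spec hn,
    fun x hx k => pointwise hx k, Pool.Agent.T9h33.PH.third, hlow,
    Pool.Agent.T9h33.PL.hyper, w3, wT, fun θ ν C e1 e2 =>
      hyperscaling (fun n hn => T9h33.Mod.xi_pos hn) Pool.Agent.T9h33.PL.hyper w3 e1 e2⟩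
  simp only [c_eq]
  exact H981.tendsto_root

end Pool.Agent.Results.MP_376faf_co.PolygonLowerBound
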