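import Pool.Agent.T9h33.PG
import Pool.Agent.W387.Q.Hyp
import Pool.Agent.TH508.LT.Gap2
import Pool.Agent.TH546.PC.Point
import Pool.Agent.T9h7.PL.Sum

set_option autoImplicit false
set_option linter.unusedSectionVars false

/-!
Self-avoiding polygons on the square lattice: intermediate values of `p_{2n} / (μ^(2n) n^c)` along
windows, limit points of the amplitudes and of the exponents.
-/

namespace Pool.Agent.Results.MP_376faf_co.PolygonPowerLaws

open Filter Topology

/-- the number of `n`-step self-avoiding walks on `ℤ²` started at the origin -/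
noncomputable def c (n : ℕ) : ℕ :=
  Nat.card {f : Fin (n + 1) → ℤ × ℤ // f 0 = 0 ∧ Function.Injective f ∧
    ∀ i : Fin n, |(f i.succ).1 - (f i.castSucc).1| + |(f i.succ).2 - (f i.castSucc).2| = 1}

/-- a closed nearest-neighbour loop on `ℤ²` with `m` steps, rooted at the origin and oriented,
that visits no vertex twice -/
def IsLoop (m : ℕ) (f : ZMod m → ℤ × ℤ) : Prop :=
  f 0 = 0 ∧ Function.Injective f ∧
    ∀ i : ZMod m, |(f (i + 1)).1 - (f i).1| + |(f (i + 1)).2 - (f i).2| = 1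

/-- the number of self-avoiding polygons of perimeter `2n` on `ℤ²` up to translation: the number
of rooted oriented loops with `2n` steps, divided by `4n` (the choices of the starting point and
of the orientation) -/
noncomputable def p (n : ℕ) : ℝ :=
  (Nat.card {f : ZMod (2 * n) → ℤ × ℤ // IsLoop (2 * n) f} : ℝ) / (4 * (n : ℝ))

/-- the normalised number `p_{2n} μ^(-2n)` -/
noncomputable def u (μ : ℝ) (n : ℕ) : ℝ := p n / μ ^ (2 * n)

/-- the exponent at perimeter `2n`: `log (p_{2n} μ^(-2n)) / log n` -/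
noncomputable def g (μ : ℝ) (n : ℕ) : ℝ := Real.log (u μ n) / Real.log n

/-- the (finite) limit points of a sequence -/
def limitPoints (A : ℕ → ℝ) : Set ℝ := {x | MapClusterPt x atTop A}

/-- the power law with exponent `c` and amplitude `B` on infinitely many windows: for infinitely
many `n` and all `m = n + k` from `n` to `2n`,
`p_{2m} = B m^c μ^(2m) e^θ` with `|θ| ≤ K (1 + |c|) (1 + m - n) log n / √n` -/
def PowerLaw (μ K c B : ℝ) : Prop :=
  ∃ᶠ n : ℕ in atTop, ∀ k ≤ n,
    |Real.log (u μ (n + k)) - (Real.log B + c * Real.log ((n + k : ℕ) : ℝ))| ≤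
      K * (1 + |c|) * (1 + k) * (Real.log n / Real.sqrt n)

lemma c_eq (n : ℕ) : (c n : ℝ) = H981.cr' n := by
  rw [H981.cr'_eq]
  unfold c H981.C H981.IsSAW
  congr 1
  apply Nat.card_congr
  apply Equiv.subtypeEquivRight
  intro f
  constructor
  · rintro ⟨h0, h1, h2⟩
    exact ⟨h0, h2, h1⟩
  · rintro ⟨h0, h2, h1⟩
    exact ⟨h0, h1, h2⟩

lemma p_eq (n : ℕ) : p n = H981.PP n := rfl

lemma p_pos {n : ℕ} (hn : 2 ≤ n) : 0 < p n := Pool.Agent.H739K.PP_pos hn

open Pool.Agent.T9h7.PL in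
theorem facts : (∃ K, Reg (u H981.mu) K) ∧
    (∃ K : ℝ, 0 ≤ K ∧ ∀ n : ℕ, 2 ≤ n → u H981.mu n ≤ K / n) ∧
    ∃ K : ℝ, 0 ≤ K ∧ ∀ n : ℕ, 2 ≤ n →
      ∑ j ∈ Finset.Icc 2 n, Real.sqrt j * u H981.mu j ≤ K * Real.log n := by
  have hmu := H981.mu_pos
  have hpos : ∀ n : ℕ, 2 ≤ n → 0 < u H981.mu n := fun n hn => div_pos (p_pos hn) (by positivity)
  refine ⟨?_, ?_, ?_⟩
  · obtain ⟨K, hK⟩ := Pool.Agent.W387.Q.f1
    refine reg_of_rate hpos (K0 := K / H981.mu ^ 2) fun n hn => ?_
    have hp := p_pos hn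
    have h1 : |p (n + 1) / p n - H981.mu ^ 2| ≤ K * (Real.log n / Real.sqrt n) := by
      rw [← Pool.Agent.TH508.LT.rN_eq hn]
      exact hK n hn
    have e : u H981.mu (n + 1) / u H981.mu n - 1 =
        (p (n + 1) / p n - H981.mu ^ 2) / H981.mu ^ 2 := by
      unfold u
      rw [show 2 * (n + 1) = 2 * n + 2 by ring, pow_add]
      field_simp
    rw [e, abs_div, abs_of_pos (show 0 < H981.mu ^ 2 by positivity), div_mul_eq_mul_div]
    exact div_le_div_of_nonneg_right h1 (by positivity)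
  · obtain ⟨K, hK, h⟩ := Pool.Agent.TH546.PC.point
    exact ⟨K, hK, fun n hn => h n hn⟩
  · obtain ⟨K, hK, h⟩ := Pool.Agent.TH546.PC.log_sum
    refine ⟨2 * K, by linarith, fun n hn => ?_⟩
    have h4 : ∑ j ∈ Finset.Icc 2 n, Real.sqrt j * u H981.mu j ≤
        ∑ j ∈ Finset.Icc 2 n, 2 * (Pool.Agent.W870.Pg.MW j * Pool.Agent.W870.Pg.Fp j) := by
      apply Finset.sum_le_sum
      intro j hj
      have hj2 := (Finset.mem_Icc.mp hj).1
      have a1 := Pool.Agent.W870.Pg.sqrt_le_two_MW hj2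
      have a2 := (Pool.Agent.W870.Pg.Fp_pos hj2).le
      have e : u H981.mu j = Pool.Agent.W870.Pg.Fp j := rfl
      rw [e]
      nlinarith
    rw [← Finset.mul_sum] at h4
    have h5 := h n hn
    linarith

/-- **Theorem.** Let `μ` be the connective constant of `ℤ²`, `p_{2n}` the number of self-avoiding
polygons of perimeter `2n` up to translation, `u_n = p_{2n} μ^(-2n)` and `g_n = log u_n / log n`;
Q1 says that `u_n n^(5/2)` tends to some `C > 0`, and implies `g_n → -5/2`. There is `K` such that: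
(1) for all real `c` and `B > 0`, if infinitely many `n` have `u_n < B n^c` and infinitely many
`u_n > B n^c`, then for infinitely many `n` all `m` from `n` to `2n` satisfy
`u_m = B m^c e^θ`, `|θ| ≤ K (1 + |c|) (1 + m - n) log n / √n`;
(2) for every `c` (`c = -5/2` in Q1) the limit points of `u_n / n^c` form a closed interval, and
`u_n / n^c → C` if and only if `C` is a limit point near which there are only countably many;
(3) the same for `g_n`; for every `ε > 0` the sum of `1/n` over the `n` with `g_n ≥ -3/2 + ε` is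
finite;
(4) `g_n` has a largest limit point `y`, `-4 ≤ y ≤ -1`, which is its limit superior, and either
`g_n → y` and `y ≤ -3/2`, or there is `x < y` such that for all exponents `c` between `x` and `y` and
all amplitudes `B > 0` the conclusion of (1) holds. -/
theorem result : ∃ μ : ℝ, 0 < μ ∧
    Tendsto (fun n : ℕ => (c n : ℝ) ^ ((1:ℝ) / (n : ℝ))) atTop (𝓝 μ) ∧
    ∃ K : ℝ, 0 < K ∧
    (∀ c B : ℝ, 0 < B → (∃ᶠ n : ℕ in atTop, u μ n < B * (n : ℝ) ^ c) →
      (∃ᶠ n : ℕ in atTop, B * (n : ℝ) ^ c < u μ n) → PowerLaw μ K c B) ∧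
    (∀ c : ℝ, IsClosed (limitPoints fun n => u μ n / (n : ℝ) ^ c) ∧
      (limitPoints fun n => u μ n / (n : ℝ) ^ c).OrdConnected ∧
      ∀ C : ℝ, Tendsto (fun n : ℕ => u μ n / (n : ℝ) ^ c) atTop (𝓝 C) ↔
        C ∈ (limitPoints fun n => u μ n / (n : ℝ) ^ c) ∧ ∃ δ : ℝ, 0 < δ ∧
          ((limitPoints fun n => u μ n / (n : ℝ) ^ c) ∩ Set.Ioo (C - δ) (C + δ)).Countable) ∧
    (IsClosed (limitPoints (g μ)) ∧ (limitPoints (g μ)).OrdConnected ∧
      (∀ γ : ℝ, Tendsto (g μ) atTop (𝓝 γ) ↔ γ ∈ limitPoints (g μ) ∧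
        ∃ δ : ℝ, 0 < δ ∧ (limitPoints (g μ) ∩ Set.Ioo (γ - δ) (γ + δ)).Countable) ∧
      ∀ ε : ℝ, 0 < ε →
        Summable (fun n : ℕ => {n : ℕ | -3 / 2 + ε ≤ g μ n}.indicator (fun n => 1 / (n : ℝ)) n)) ∧
    ∃ y : ℝ, -4 ≤ y ∧ y ≤ -1 ∧ IsGreatest (limitPoints (g μ)) y ∧
      (∀ t : ℝ, y < t → ∀ᶠ n in atTop, g μ n < t) ∧
      ((y ≤ -3 / 2 ∧ Tendsto (g μ) atTop (𝓝 y)) ∨
        ∃ x : ℝ, x < y ∧ ∀ c ∈ Set.Ioo x y, ∀ B : ℝ, 0 < B → PowerLaw μ K c B) := by
  have hmu := H981.mu_pos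
  obtain ⟨⟨K, R⟩, ⟨K1, hK1, h1⟩, ⟨K2, hK2, h2⟩⟩ := facts
  have hK := R.hK
  refine ⟨H981.mu, hmu, ?_, ?_⟩
  · simp only [c_eq]
    exact H981.tendsto_root
  have hg : g H981.mu = Pool.Agent.R79.SW.ex (u H981.mu) := rfl
  have hL : ∀ A : ℕ → ℝ, limitPoints A = Pool.Agent.R79.SW.Lims A := fun A => rfl
  have conv : ∀ c B : ℝ, (∃ᶠ n : ℕ in atTop, ∀ k ≤ n,
      |Pool.Agent.T9h7.PL.dev (u H981.mu) c B (n + k)| ≤
        2 * (K + 2 * |c|) * (1 + k) * Pool.Agent.R956.D2.f n) →
      PowerLaw H981.mu (2 * K + 4) c B := by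
    intro c B h
    refine h.mono fun n hn k hk => ?_
    have e1 := hn k hk
    unfold Pool.Agent.T9h7.PL.dev at e1
    rw [show Real.log (u H981.mu (n + k)) - (Real.log B + c * Real.log ((n + k : ℕ) : ℝ)) =
      Real.log (u H981.mu (n + k)) - c * Real.log ((n + k : ℕ) : ℝ) - Real.log B by ring]
    refine e1.trans ?_
    have hf : 0 ≤ Real.log n / Real.sqrt n := Pool.Agent.R956.D2.f_nonneg n
    have hc := abs_nonneg c
    show 2 * (K + 2 * |c|) * (1 + (k : ℝ)) * (Real.log n / Real.sqrt n) ≤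
      (2 * K + 4) * (1 + |c|) * (1 + k) * (Real.log n / Real.sqrt n)
    apply mul_le_mul_of_nonneg_right _ hf
    apply mul_le_mul_of_nonneg_right _ (by positivity)
    nlinarith
  have hexc : ∀ ε : ℝ, 0 < ε → Summable (fun n : ℕ =>
      {n : ℕ | -3 / 2 + ε ≤ g H981.mu n}.indicator (fun n => 1 / (n : ℝ)) n) := fun ε hε =>
    Pool.Agent.T9h7.PL.exceptional R.pos hK2 h2 hε
  -- the exponents are eventually at most `-1 + ε`
  have hup : ∀ ε : ℝ, 0 < ε → ∀ᶠ n in atTop, g H981.mu n < -1 + ε := by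
    intro ε hε
    have hbig : ∀ᶠ n : ℕ in atTop, |Real.log (K1 + 1)| < ε * Real.log n :=
      (Pool.Agent.R79.SW.log_tend.const_mul_atTop hε).eventually_gt_atTop _
    filter_upwards [hbig, eventually_ge_atTop 2] with n a1 a2
    have hn0 : (0 : ℝ) < n := by exact_mod_cast (by omega : 0 < n)
    have hl := Pool.Agent.T9h7.PL.log_two_le a2
    have b1 : u H981.mu n ≤ (K1 + 1) / n := (h1 n a2).trans
      (div_le_div_of_nonneg_right (by linarith) hn0.le)
    have b2 := Real.log_le_log (R.pos n a2) b1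
    rw [Real.log_div (by linarith) hn0.ne'] at b2
    unfold g
    rw [div_lt_iff₀ hl]
    have := le_abs_self (Real.log (K1 + 1))
    linarith
  -- the exponents are infinitely often at least `-4`
  have hdown : ∃ᶠ n in atTop, -4 ≤ g H981.mu n := by
    obtain ⟨κ, hκ, h⟩ := Pool.Agent.T9h33.PG.lower
    rw [frequently_atTop]
    intro n0
    obtain ⟨n1, hn1⟩ := (Pool.Agent.R79.SW.log_tend.eventually_ge_atTop 1).exists_forall_of_atTop
    obtain ⟨n, a1, a2⟩ := h (max (max n0 n1) 2)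
    have b0 : n0 ≤ n := ((le_max_left _ _).trans (le_max_left _ _)).trans a1
    have b1 : n1 ≤ n := ((le_max_right _ _).trans (le_max_left _ _)).trans a1
    have b2 : 2 ≤ n := (le_max_right _ _).trans a1
    refine ⟨n, b0, ?_⟩
    have hll : (1 : ℝ) ≤ Real.log n := hn1 n b1
    have hn0 : (0 : ℝ) < n := by exact_mod_cast (by omega : 0 < n)
    have hl := Pool.Agent.T9h7.PL.log_two_le b2
    have hP : 0 < H981.mu ^ (2 * n) := by positivity
    have b3 : 1 / (n : ℝ) ^ 4 ≤ u H981.mu n := by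
      unfold u
      rw [le_div_iff₀ hP, p_eq]
      refine le_trans ?_ a2
      have e1 : (1 : ℝ) ≤ Real.exp (κ * (Real.log n / Real.log (Real.log n))) :=
        Real.one_le_exp (mul_nonneg hκ.le (div_nonneg hl.le (Real.log_nonneg hll)))
      have e2 : 0 ≤ H981.mu ^ (2 * n) / (n : ℝ) ^ 4 := by positivity
      calc 1 / (n : ℝ) ^ 4 * H981.mu ^ (2 * n) = 1 * (H981.mu ^ (2 * n) / (n : ℝ) ^ 4) := by ring
        _ ≤ _ := mul_le_mul_of_nonneg_right e1 e2
    have b4 := Real.log_le_log (by positivity) b3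
    rw [one_div, Real.log_inv, Real.log_pow] at b4
    unfold g
    rw [le_div_iff₀ hl]
    push_cast at b4
    linarith
  -- the limit superior
  set S : Set ℝ := {t : ℝ | ∃ᶠ n in atTop, t < g H981.mu n} with hS
  have hSmem : ∀ t : ℝ, t < -4 → t ∈ S := fun t ht => hdown.mono fun n hn => lt_of_lt_of_le ht hn
  have hSne : S.Nonempty := ⟨-5, hSmem _ (by norm_num)⟩
  have hSle : ∀ t ∈ S, t ≤ -1 := by
    intro t ht
    by_contra hcon
    push Not at hcon
    obtain ⟨n, a1, a2⟩ := (ht.and_eventually (hup ((t + 1) / 2) (by linarith))).exists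
    linarith
  have hSb : BddAbove S := ⟨-1, fun t ht => hSle t ht⟩
  set y : ℝ := sSup S with hy
  have hfreq : ∀ t : ℝ, t < y → ∃ᶠ n in atTop, t < g H981.mu n := by
    intro t ht
    obtain ⟨s, hs1, hs2⟩ := exists_lt_of_lt_csSup hSne ht
    exact hs1.mono fun n hn => lt_trans hs2 hn
  have hev : ∀ t : ℝ, y < t → ∀ᶠ n in atTop, g H981.mu n < t := by
    intro t ht
    have h3 : (y + t) / 2 ∉ S := fun h3 => by
      have := le_csSup hSb h3
      linarith
    have h4 : ¬ ∃ᶠ n in atTop, (y + t) / 2 < g H981.mu n := h3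
    rw [not_frequently] at h4
    exact h4.mono fun n hn => by linarith [not_lt.mp hn]
  have hgr : IsGreatest (limitPoints (g H981.mu)) y := by
    constructor
    · show MapClusterPt y atTop (g H981.mu)
      rw [mapClusterPt_iff_frequently]
      intro s hs
      obtain ⟨ε, hε, hsub⟩ := Metric.mem_nhds_iff.mp hs
      refine ((hfreq (y - ε) (by linarith)).and_eventually (hev (y + ε) (by linarith))).mono ?_
      rintro n ⟨a1, a2⟩
      refine hsub ?_
      rw [Metric.mem_ball, Real.dist_eq, abs_lt]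
      constructor <;> linarith
    · intro γ hγ
      by_contra hcon
      push Not at hcon
      have f1 := Pool.Agent.T9h7.PL.freq_gt (c := (y + γ) / 2) hγ (by linarith)
      obtain ⟨n, a1, a2⟩ := (f1.and_eventually (hev ((y + γ) / 2) (by linarith))).exists
      linarith
  refine ⟨2 * K + 4, by linarith, ?_, ?_, ⟨Pool.Agent.R79.SW.closed _,
    Pool.Agent.T9h7.PL.ord_gen (Pool.Agent.T9h7.PL.ivp_ex R),
    Pool.Agent.T9h7.PL.isolated_iff_gen (Pool.Agent.T9h7.PL.ivp_ex R), hexc⟩,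
    y, ?_, csSup_le hSne hSle, hgr, hev, ?_⟩
  · intro c B hB a1 a2
    exact conv c B (Pool.Agent.T9h7.PL.main_cross R hB a1 a2)
  · intro c
    exact ⟨Pool.Agent.R79.SW.closed _,
      Pool.Agent.T9h7.PL.ord_gen (Pool.Agent.T9h7.PL.ivp_amp R c),
      Pool.Agent.T9h7.PL.isolated_iff_gen (Pool.Agent.T9h7.PL.ivp_amp R c)⟩
  · by_contra hcon
    push Not at hcon
    have := le_csSup hSb (hSmem ((y + -4) / 2) (by linarith))
    linarith
  · by_cases ht : Tendsto (g H981.mu) atTop (𝓝 y)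
    · refine Or.inl ⟨?_, ht⟩
      by_contra hcon
      push Not at hcon
      have hε : 0 < (y + 3 / 2) / 2 := by linarith
      have f1 := Pool.Agent.T9h7.PL.freq_of_exceptional (v := u H981.mu) (hexc _ hε)
      have f2 := ht.eventually (Ioi_mem_nhds (show -3 / 2 + (y + 3 / 2) / 2 < y by linarith))
      obtain ⟨n, b1, b2⟩ := (f1.and_eventually f2).exists
      have b3 : -3 / 2 + (y + 3 / 2) / 2 < Pool.Agent.R79.SW.ex (u H981.mu) n := b2
      linarith
    · right
      obtain ⟨ε, hε, h | h⟩ := Pool.Agent.R79.SW.not_tendsto ht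
      · refine ⟨y - ε, by linarith, fun c hc B hB => conv c B ?_⟩
        have a1 : c < (c + y) / 2 := by linarith [hc.2]
        have a2 : (c + y) / 2 < y := by linarith [hc.2]
        exact Pool.Agent.T9h7.PL.main_cross R hB (Pool.Agent.T9h7.PL.amp_low R hB hc.1 h)
          (Pool.Agent.T9h7.PL.amp_high R hB a1 ((hfreq _ a2).mono fun n hn => hn.le))
      · exfalso
        obtain ⟨n, b1, b2⟩ := (h.and_eventually (hev (y + ε / 2) (by linarith))).exists
        linarith

end Pool.Agent.Results.MP_376faf_co.PolygonPowerLaws
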