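import Pool.Agent.T9h81.SP.Sets
import Pool.Agent.T9h81.SP.Thin

/-!
# Uniform self-avoiding polygons are thin

For the uniform self-avoiding polygon `f : ℤ/2n → ℤ²` with perimeter `2n` (with a root and an
orientation, `f 0 = 0`), with probability at least `1 - exp (-x)`, simultaneously for all `k ≥ 1` and
with `M = exp (K (log (k + 1))^4) ((log n)^2 + x)`: every set `S` of vertices has at most
`b(S) M` elements within distance `k` of the other vertices, where `b(S)` is the number of the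
switches between `S` and its complement along the polygon; for all `m ≥ 1` at most `(n/m) M` vertices
are within distance `k` of a vertex at distance at least `m` along the polygon; the lattice points
within distance `k` of the polygon induce a graph with vertex separation number (pathwidth) at most
`M`; and every square of side at least `M` contains an unvisited ball of radius `k`.
-/

set_option autoImplicit false

namespace Pool.Agent.Results.MP_376faf_co.ThinPolygons

/-- `f` is a self-avoiding polygon of perimeter `2n` with a root and an orientation: an injective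
closed nearest-neighbour loop. -/
def IsPolygon (n : ℕ) (f : ZMod (2 * n) → ℤ × ℤ) : Prop :=
  Function.Injective f ∧
    ∀ i : ZMod (2 * n), |(f (i + 1)).1 - (f i).1| + |(f (i + 1)).2 - (f i).2| = 1

/-- The rooted polygons with root at the origin; their number is `4n p_{2n}`. -/
def polygons (n : ℕ) : Set (ZMod (2 * n) → ℤ × ℤ) := {f | f 0 = 0 ∧ IsPolygon n f}

/-- The probability of `B` for the uniform polygon. -/
noncomputable def prob (n : ℕ) (B : Set (ZMod (2 * n) → ℤ × ℤ)) : ℝ :=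
  (polygons n ∩ B).ncard / (polygons n).ncard

/-- the graph distance of lattice points -/
def dist1 (x y : ℤ × ℤ) : ℤ := |x.1 - y.1| + |x.2 - y.2|

/-- the distance of two vertices along the polygon -/
def along (n : ℕ) (i j : ZMod (2 * n)) : ℕ := (i - j).valMinAbs.natAbs

/-- The number of the switches between `S` and its complement: the number of `i` such that
exactly one of `i - 1` and `i` is in `S` (twice the number of the arcs of `S`). -/
noncomputable def switches (n : ℕ) (S : Set (ZMod (2 * n))) : ℕ :=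
  Set.ncard {i : ZMod (2 * n) | ¬ (i ∈ S ↔ i - 1 ∈ S)}

/-- the elements of `S` within distance `k` of a vertex outside `S` -/
def close (n k : ℕ) (f : ZMod (2 * n) → ℤ × ℤ) (S : Set (ZMod (2 * n))) : Set (ZMod (2 * n)) :=
  {i | i ∈ S ∧ ∃ j, j ∉ S ∧ dist1 (f i) (f j) ≤ k}

/-- the vertices within distance `k` of a vertex at distance at least `m` along the polygon -/
def pinch (n k m : ℕ) (f : ZMod (2 * n) → ℤ × ℤ) : Set (ZMod (2 * n)) :=
  {i | ∃ j, m ≤ along n i j ∧ dist1 (f i) (f j) ≤ k}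

/-- `N_k`: the lattice points at distance at most `k` from the polygon -/
def near (n k : ℕ) (f : ZMod (2 * n) → ℤ × ℤ) : Set (ℤ × ℤ) := {y | ∃ i, dist1 (f i) y ≤ k}

/-- the inner boundary, in the graph induced on `N_k`, of the initial segment `{τ ≤ s}` of the
linear order of `N_k` given by `τ` -/
def front (n k : ℕ) (f : ZMod (2 * n) → ℤ × ℤ) (τ : ℤ × ℤ → ℕ) (s : ℕ) : Set (ℤ × ℤ) :=
  {y | y ∈ near n k f ∧ τ y ≤ s ∧ ∃ y' ∈ near n k f, s < τ y' ∧ dist1 y y' = 1}

/-- the vertex separation number of the graph induced on `N_k` is at most `M`: there is a linear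
order of `N_k` (given by an injective `τ`) of which all initial segments have at most `M` points in
their inner boundary -/
def Separable (n k : ℕ) (f : ZMod (2 * n) → ℤ × ℤ) (M : ℝ) : Prop :=
  ∃ τ : ℤ × ℤ → ℕ, Set.InjOn τ (near n k f) ∧ ∀ s : ℕ, (Nat.card (front n k f τ s) : ℝ) ≤ M

/-- the square `[a₁, a₁ + L] × [a₂, a₂ + L]` contains a ball of radius `k`, with centre `y`, of which no
point is visited -/
def Hole (n k L : ℕ) (f : ZMod (2 * n) → ℤ × ℤ) (a : ℤ × ℤ) : Prop :=
  ∃ y : ℤ × ℤ, (a.1 + k ≤ y.1 ∧ y.1 + k ≤ a.1 + L) ∧ (a.2 + k ≤ y.2 ∧ y.2 + k ≤ a.2 + L) ∧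
    ∀ i, (k : ℤ) < dist1 (f i) y

/-- the bound `exp (K (log (k + 1))^4) ((log n)^2 + x)` -/
noncomputable def bound (K : ℝ) (n k : ℕ) (x : ℝ) : ℝ :=
  Real.exp (K * Real.log (k + 1) ^ 4) * (Real.log n ^ 2 + x)

/-- **Theorem.** There is `K` such that for all `n ≥ 2` and `x ≥ 0`, with probability at least
`1 - exp (-x)`, the uniform self-avoiding polygon of perimeter `2n` on `ℤ²` has for all `k ≥ 1`, with
`M = exp (K (log (k + 1))^4) ((log n)^2 + x)`:
(1) for every set `S` of vertices, at most `b(S) M` elements of `S` are within distance `k` of a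
vertex outside `S`;
(2) for all `m ≥ 1`, at most `(n/m) M` vertices are within distance `k` of a vertex at distance at
least `m` along the polygon;
(3) the graph induced on `N_k` has vertex separation number at most `M`;
(4) every square of side `L ≥ M` contains an unvisited ball of radius `k`. -/
theorem result : ∃ K : ℝ, 1 ≤ K ∧ ∀ n : ℕ, 2 ≤ n → ∀ x : ℝ, 0 ≤ x →
    prob n {f | ¬ ∀ k : ℕ, 1 ≤ k →
      (∀ S : Set (ZMod (2 * n)), ((close n k f S).ncard : ℝ) ≤ switches n S * bound K n k x) ∧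
      (∀ m : ℕ, 1 ≤ m → ((pinch n k m f).ncard : ℝ) ≤ n / m * bound K n k x) ∧
      Separable n k f (bound K n k x) ∧
      ∀ L : ℕ, bound K n k x ≤ L → ∀ a : ℤ × ℤ, Hole n k L f a} ≤ Real.exp (-x) := by
  obtain ⟨K, hK, h⟩ := T9h81.SP.main
  refine ⟨16 * K + 60, by linarith, fun n hn x hx => ?_⟩
  obtain ⟨q, rfl⟩ : ∃ q, n = q + 1 := ⟨n - 1, by omega⟩
  have h1 := h q (by omega) x hx
  have hpl : polygons (q + 1) = T9h81.SP.pl q := by
    ext f
    exact Iff.rfl
  have hcn : (0 : ℝ) < (T9h81.SP.pl q).ncard := by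
    rw [T9h81.SP.pl_card]
    have hmu := H981.mu_pos
    obtain ⟨K1, _, h2⟩ := Pool.Agent.TH508.LT.sq_PP2
    have : 0 < H981.PP (q + 1) := lt_of_lt_of_le (by positivity) (h2 (q + 1) hn).1
    positivity
  have hn' : (2 : ℝ) ≤ ((q + 1 : ℕ) : ℝ) := by exact_mod_cast hn
  have hlog2 : (0.69 : ℝ) < Real.log 2 := by
    have := Real.log_two_gt_d9
    linarith
  have hL2 : (0.47 : ℝ) ≤ Real.log ((q + 1 : ℕ) : ℝ) ^ 2 := by
    have h2 : Real.log 2 ≤ Real.log ((q + 1 : ℕ) : ℝ) := Real.log_le_log (by norm_num) hn'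
    nlinarith
  unfold prob
  rw [hpl, div_le_iff₀ hcn]
  refine le_trans ?_ h1
  have hsub : T9h81.SP.pl q ∩ {f | ¬ ∀ k : ℕ, 1 ≤ k →
      (∀ S : Set (ZMod (2 * (q + 1))), ((close (q + 1) k f S).ncard : ℝ) ≤
        switches (q + 1) S * bound (16 * K + 60) (q + 1) k x) ∧
      (∀ m : ℕ, 1 ≤ m → ((pinch (q + 1) k m f).ncard : ℝ) ≤
        ((q + 1 : ℕ) : ℝ) / m * bound (16 * K + 60) (q + 1) k x) ∧
      Separable (q + 1) k f (bound (16 * K + 60) (q + 1) k x) ∧
      ∀ L : ℕ, bound (16 * K + 60) (q + 1) k x ≤ L → ∀ a : ℤ × ℤ, Hole (q + 1) k L f a} ⊆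
      {f | f ∈ T9h81.SP.pl q ∧ ∃ (s : ZMod (2 * (q + 1))) (t k : ℕ), 1 ≤ k ∧
        Real.exp (K * Real.log (k + 1) ^ 4) * (Real.log ((q : ℝ) + 1) ^ 2 + x) <
          T9h33.Ca.ca (2 * q + 1) t k (T9h81.SP.wk q s f)} := by
    rintro f ⟨hf, hb⟩
    refine ⟨hf, ?_⟩
    by_contra hcon
    push Not at hcon
    apply hb
    intro k hk
    have hk' : (1 : ℝ) ≤ k := by exact_mod_cast hk
    obtain ⟨s, hs⟩ : ∃ s, s = Real.log ((q + 1 : ℕ) : ℝ) ^ 2 + x := ⟨_, rfl⟩
    have hs1 : 0.47 ≤ s := by rw [hs]; linarith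
    have hs' : Real.log ((q : ℝ) + 1) ^ 2 + x = s := by
      rw [hs]
      push_cast
      rfl
    rw [hs'] at hcon
    have hlk : (0.69 : ℝ) ≤ Real.log ((k : ℝ) + 1) :=
      hlog2.le.trans (Real.log_le_log (by norm_num) (by linarith))
    have hlk4 : (0.22 : ℝ) ≤ Real.log ((k : ℝ) + 1) ^ 4 := by
      calc (0.22 : ℝ) ≤ 0.69 ^ 4 := by norm_num
        _ ≤ _ := pow_le_pow_left₀ (by norm_num) hlk 4
    have hbd : 3 * (Real.exp (K * Real.log (k + 1) ^ 4) * s) ≤
        Real.exp ((16 * K + 60) * Real.log (k + 1) ^ 4) * s := by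
      have e1 : (3 : ℝ) ≤ Real.exp (2 : ℝ) := by
        have := Real.add_one_le_exp (2 : ℝ)
        linarith
      have e2 : Real.exp 2 * Real.exp (K * Real.log ((k : ℝ) + 1) ^ 4) ≤
          Real.exp ((16 * K + 60) * Real.log ((k : ℝ) + 1) ^ 4) := by
        rw [← Real.exp_add]
        apply Real.exp_le_exp.2
        nlinarith
      have e3 : 0 < Real.exp (K * Real.log ((k : ℝ) + 1) ^ 4) := Real.exp_pos _
      have e4 : 3 * Real.exp (K * Real.log ((k : ℝ) + 1) ^ 4) ≤
          Real.exp ((16 * K + 60) * Real.log ((k : ℝ) + 1) ^ 4) := by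
        refine le_trans ?_ e2
        gcongr
      calc _ = 3 * Real.exp (K * Real.log ((k : ℝ) + 1) ^ 4) * s := by ring
        _ ≤ _ := by gcongr
    have hM0 : 0 ≤ Real.exp (K * Real.log ((k : ℝ) + 1) ^ 4) * s := by positivity
    have hbe : bound (16 * K + 60) (q + 1) k x =
        Real.exp ((16 * K + 60) * Real.log (k + 1) ^ 4) * s := by
      unfold bound
      rw [hs]
    have hbd1 : Real.exp (K * Real.log (k + 1) ^ 4) * s ≤ bound (16 * K + 60) (q + 1) k x := by
      rw [hbe]
      linarith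
    -- the walk from the root
    obtain ⟨ω, hω⟩ : ∃ ω, ω = T9h81.SP.wk q 0 f := ⟨_, rfl⟩
    have hω1 : ∀ i : ZMod (2 * (q + 1)), ∃ i' : Fin (2 * q + 1 + 1), ω i' = f i := by
      intro i
      refine ⟨_, (congrFun hω _).trans ((T9h81.SP.wk_at 0 i f).trans ?_)⟩
      rw [hf.1, zero_add, sub_zero]
    have hω2 : ∀ i' : Fin (2 * q + 1 + 1), ∃ i : ZMod (2 * (q + 1)), ω i' = f i := by
      intro i'
      refine ⟨((i' : ℕ) : ZMod (2 * (q + 1))), ?_⟩
      rw [hω]
      unfold T9h81.SP.wk
      rw [hf.1, zero_add, sub_zero]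
    have hnear : near (q + 1) k f = T9h33.Sep.nb (2 * q + 1) k ω := by
      ext y
      constructor
      · rintro ⟨i, hi⟩
        obtain ⟨i', hi'⟩ := hω1 i
        exact ⟨i', by rw [hi']; exact hi⟩
      · rintro ⟨i', hi'⟩
        obtain ⟨i, hi⟩ := hω2 i'
        exact ⟨i, by rw [hi] at hi'; exact hi'⟩
    obtain ⟨th1, th2⟩ := T9h81.SP.thin (ω := ω) hK hs1 (fun t k hk => by
      rw [hω]
      exact hcon 0 t k hk) hk
    rw [← hbe] at th1 th2
    refine ⟨fun S => ?_, fun m hm => ?_, ?_, fun L hL a => ?_⟩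
    · refine (T9h81.SP.sets (S := S) (k := k) (fun s t => hcon s t k hk)).trans ?_
      exact mul_le_mul_of_nonneg_left hbd1 (Nat.cast_nonneg _)
    · have h3 := T9h81.SP.far (k := k) hm (fun s t => hcon s t k hk)
      refine le_trans h3 ?_
      have e : (q : ℝ) + 1 = ((q + 1 : ℕ) : ℝ) := by push_cast; rfl
      rw [e]
      refine mul_le_mul_of_nonneg_left ?_ (by positivity)
      rw [hbe]
      exact hbd
    · refine ⟨T9h33.Sep.tau (2 * q + 1) k ω, ?_, fun s' => ?_⟩
      · rw [hnear]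
        exact T9h33.Sep.tau_inj (2 * q + 1) k ω
      · have h3 := th1 s'
        have h4 : front (q + 1) k f (T9h33.Sep.tau (2 * q + 1) k ω) s' =
            T9h33.Sep.bd (2 * q + 1) k ω (T9h33.Sep.tau (2 * q + 1) k ω) s' := by
          unfold front T9h33.Sep.bd
          rw [hnear]
          rfl
        rw [h4]
        exact h3
    · obtain ⟨y, hy1, hy2, hy3⟩ := th2 L hL a
      refine ⟨y, hy1, hy2, fun i => ?_⟩
      obtain ⟨i', hi'⟩ := hω1 i
      have := hy3 i'
      rw [hi'] at this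
      exact this
  exact_mod_cast Set.ncard_le_ncard hsub ((T9h81.SP.pl_finite q).subset (fun f hf => hf.1))

end Pool.Agent.Results.MP_376faf_co.ThinPolygons
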